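import Pool.Agent.N575.PA.Tool

/-!
# Points with coordinates in several rings of padic integers approximated by the integer vectors of a thin set

Let `P_1, ..., P_r` be primes and `W` a thin set of integer vectors, with `O_ε (X ^ (s + ε))` elements of norm at most `X`. For
all points `x = (x_1, ..., x_r)`, `x_j` a vector of `P_j`-adic integers, outside a set of Hausdorff dimension at most `s / τ`,
only finitely many vectors `v` of `W` approximate ALL the `x_j` up to `c |v| ^ (-τ)`; for `τ = 1 / r` the residues of `x` modulo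
`∏ P_j ^ (e_j)` are of this kind if the `P_j ^ (e_j)` are of the same size. (Several primes at the same time: a version of the
tool `Pool.Agent.N575.PA` of helper575.)
-/

set_option autoImplicit false

namespace Pool.Agent.V8H78.PA

open Filter Topology MeasureTheory Finset Classical
open scoped ENNReal NNReal
open Pool.Agent.N671.DA (Thin box_fin)
open Pool.Agent.N575.PA (dimH_approx_c thin_count)

/-- **Points over several primes.** -/
theorem adic_vectors {r k : ℕ} (P : Fin r → ℕ) [∀ j, Fact (P j).Prime] (W : Set (Fin k → ℤ)) {s : ℝ} (hs : 0 ≤ s)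
    (hW : Thin W s) {τ : ℝ} (hτ : 0 < τ) :
    ∃ E : Set (∀ j : Fin r, Fin k → ℤ_[P j]), dimH E ≤ ENNReal.ofReal (s / τ) ∧
      (∀ v : Fin k → ℤ, (fun (j : Fin r) (i : Fin k) => ((v i : ℤ) : ℤ_[P j])) ∈ E) ∧
      ∀ x, x ∉ E → ∀ c : ℝ, ∃ Q : ℝ, ∀ v : Fin k → ℤ, Q ≤ ‖v‖ →
        (∀ j i, ‖x j i - (v i : ℤ_[P j])‖ ≤ c * ‖v‖ ^ (-τ)) → v ∉ W := by
  obtain ⟨Z, hZ⟩ : ∃ Z : Set (∀ j : Fin r, Fin k → ℤ_[P j]),
      Z = Set.range (fun (v : Fin k → ℤ) (j : Fin r) (i : Fin k) => ((v i : ℤ) : ℤ_[P j])) := ⟨_, rfl⟩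
  obtain ⟨U, hU⟩ : ∃ U : Set (∀ j : Fin r, Fin k → ℤ_[P j]),
      U = ⋃ c : ℕ, {x : ∀ j : Fin r, Fin k → ℤ_[P j] | {v : Fin k → ℤ | v ∈ W ∧
        dist x (fun j i => (v i : ℤ_[P j])) ≤ ((c : ℝ) + 1) * (max 1 ‖v‖) ^ (-τ)}.Infinite} := ⟨_, rfl⟩
  refine ⟨U ∪ Z, ?_, fun v => Or.inr (by rw [hZ]; exact ⟨v, rfl⟩), fun x hx c => ?_⟩
  · rw [dimH_union]
    refine max_le ?_ ?_
    · rw [hU, dimH_iUnion]
      refine iSup_le fun c => ?_
      exact dimH_approx_c (X := ∀ j : Fin r, Fin k → ℤ_[P j]) (K := Fin k → ℤ) (fun v j i => (v i : ℤ_[P j])) W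
        (fun v => max 1 ‖v‖) (fun v => le_max_left _ _) hs hτ (thin_count hW) (by positivity)
    · rw [hZ, dimH_countable (Set.countable_range _)]
      exact zero_le
  · have hxU : x ∉ U := fun h => hx (Or.inl h)
    obtain ⟨c', hc'⟩ := exists_nat_ge c
    have hfin : {v : Fin k → ℤ | v ∈ W ∧
        dist x (fun j i => (v i : ℤ_[P j])) ≤ ((c' : ℝ) + 1) * (max 1 ‖v‖) ^ (-τ)}.Finite := by
      by_contra hcon
      rw [hU] at hxU
      exact hxU (Set.mem_iUnion.2 ⟨c', hcon⟩)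
    obtain ⟨B, hB⟩ := (hfin.image (fun v : Fin k → ℤ => ‖v‖)).bddAbove
    refine ⟨max 1 (B + 1), fun v hv h1 hcon => ?_⟩
    have hv1 : 1 ≤ ‖v‖ := (le_max_left _ _).trans hv
    have hv2 : B + 1 ≤ ‖v‖ := (le_max_right _ _).trans hv
    have : ‖v‖ ≤ B := hB ⟨v, ⟨hcon, ?_⟩, rfl⟩
    · linarith
    · rw [max_eq_right hv1]
      have h0 : (0 : ℝ) ≤ ‖v‖ ^ (-τ) := by positivity
      rw [dist_pi_le_iff (by positivity)]
      intro j
      rw [dist_pi_le_iff (by positivity)]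
      intro i
      rw [dist_eq_norm]
      exact (h1 j i).trans (mul_le_mul_of_nonneg_right (by linarith) h0)

/-- The natural numbers `v_i` are the residues of the point `x` modulo `∏ P_j ^ (e_j)`. -/
def Residues {r k : ℕ} (P : Fin r → ℕ) [∀ j, Fact (P j).Prime] (x : ∀ j : Fin r, Fin k → ℤ_[P j]) (e : Fin r → ℕ)
    (v : Fin k → ℤ) : Prop :=
  (∀ i, 0 ≤ v i ∧ v i < ∏ j, (P j : ℤ) ^ e j) ∧ ∀ j i, (P j : ℤ_[P j]) ^ e j ∣ x j i - (v i : ℤ_[P j])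

/-- the residues of a point modulo `∏ P_j ^ (e_j)`, the prime powers of the same size, approximate the point -/
theorem residues {r k : ℕ} (hr : 1 ≤ r) (P : Fin r → ℕ) [∀ j, Fact (P j).Prime] (x : ∀ j : Fin r, Fin k → ℤ_[P j])
    (hx : ∀ v : Fin k → ℤ, x ≠ fun (j : Fin r) (i : Fin k) => ((v i : ℤ) : ℤ_[P j])) (κ Q₁ : ℝ) :
    ∃ Q : ℝ, ∀ e : Fin r → ℕ, (∀ j l, (P j : ℝ) ^ e j ≤ κ * (P l : ℝ) ^ e l) → Q ≤ ∏ j, (P j : ℝ) ^ e j →
      ∀ v : Fin k → ℤ, Residues P x e v →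
        Q₁ ≤ ‖v‖ ∧ ∀ j i, ‖x j i - (v i : ℤ_[P j])‖ ≤ (|κ| + 1) * ‖v‖ ^ (-(1 / (r : ℝ))) := by
  -- the small vectors are at a positive distance
  have hfin : {v : Fin k → ℤ | ‖v‖ ≤ max Q₁ 1}.Finite := by
    have h := box_fin (ι := Fin k) (max Q₁ 1)
    refine h.subset fun v hv i => ?_
    have := (norm_le_pi_norm v i).trans hv
    rwa [Int.norm_eq_abs] at this
  obtain ⟨ρ, hρ, hρ2⟩ : ∃ ρ : ℝ, 0 < ρ ∧ ∀ v : Fin k → ℤ, ‖v‖ ≤ max Q₁ 1 → ∃ j i, ρ ≤ ‖x j i - (v i : ℤ_[P j])‖ := by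
    have h1 : ∀ v : Fin k → ℤ, ∃ j i, x j i - (v i : ℤ_[P j]) ≠ 0 := by
      intro v
      by_contra hcon
      push Not at hcon
      exact hx v (by funext j i; exact sub_eq_zero.1 (hcon j i))
    choose j i hji using h1
    obtain ⟨F, hF⟩ : ∃ F : Finset (Fin k → ℤ), F = hfin.toFinset := ⟨_, rfl⟩
    rcases F.eq_empty_or_nonempty with he | he
    · refine ⟨1, one_pos, fun v hv => ?_⟩
      have : v ∈ F := by rw [hF, Set.Finite.mem_toFinset]; exact hv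
      rw [he] at this
      simp at this
    · obtain ⟨v₀, -, hv₀⟩ := F.exists_min_image (fun v => ‖x (j v) (i v) - (v (i v) : ℤ_[P (j v)])‖) he
      refine ⟨‖x (j v₀) (i v₀) - (v₀ (i v₀) : ℤ_[P (j v₀)])‖, norm_pos_iff.2 (hji v₀), fun v hv => ⟨j v, i v, ?_⟩⟩
      exact hv₀ v (by rw [hF, Set.Finite.mem_toFinset]; exact hv)
  refine ⟨((|κ| + 1) / ρ) ^ r + 1, fun e he hQ v hv => ?_⟩
  have hP1 : ∀ j, (1 : ℝ) ≤ (P j : ℝ) ^ e j := fun j => one_le_pow₀ (by exact_mod_cast (Fact.out : (P j).Prime).one_le)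
  have hP0 : ∀ j, (0 : ℝ) < (P j : ℝ) ^ e j := fun j => lt_of_lt_of_le one_pos (hP1 j)
  have hclose : ∀ j i, ‖x j i - (v i : ℤ_[P j])‖ ≤ ((P j : ℝ) ^ e j)⁻¹ := by
    intro j i
    have h1 := hv.2 j i
    have h2 : x j i - (v i : ℤ_[P j]) ∈ (Ideal.span {(P j : ℤ_[P j]) ^ e j} : Ideal ℤ_[P j]) :=
      Ideal.mem_span_singleton.2 h1
    rw [← PadicInt.norm_le_pow_iff_mem_span_pow] at h2
    simpa using h2
  have hκ : ∀ j l, (P j : ℝ) ^ e j ≤ (|κ| + 1) * (P l : ℝ) ^ e l := fun j l =>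
    (he j l).trans (mul_le_mul_of_nonneg_right (by linarith [le_abs_self κ]) (hP0 l).le)
  have hκ1 : (1 : ℝ) ≤ |κ| + 1 := by linarith [abs_nonneg κ]
  have hprod : ∀ l, ∏ j, (P j : ℝ) ^ e j ≤ ((|κ| + 1) * (P l : ℝ) ^ e l) ^ r := by
    intro l
    calc ∏ j, (P j : ℝ) ^ e j ≤ ∏ _j : Fin r, ((|κ| + 1) * (P l : ℝ) ^ e l) :=
          Finset.prod_le_prod (fun j _ => (hP0 j).le) (fun j _ => hκ j l)
      _ = _ := by rw [Finset.prod_const, Finset.card_univ, Fintype.card_fin]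
  have hbig : max Q₁ 1 ≤ ‖v‖ := by
    by_contra hcon
    push Not at hcon
    obtain ⟨j, i, hji⟩ := hρ2 v hcon.le
    have h1 : (P j : ℝ) ^ e j ≤ 1 / ρ := by
      have h2 := hji.trans (hclose j i)
      rw [le_div_iff₀ hρ]
      have h3 := mul_le_mul_of_nonneg_left h2 (hP0 j).le
      rwa [mul_inv_cancel₀ (hP0 j).ne'] at h3
    have h2 : ∏ j, (P j : ℝ) ^ e j ≤ ((|κ| + 1) / ρ) ^ r := by
      refine (hprod j).trans (pow_le_pow_left₀ (by have := hP0 j; positivity) ?_ r)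
      rw [div_eq_mul_one_div]
      exact mul_le_mul_of_nonneg_left h1 (by linarith)
    linarith
  have hv1 : 1 ≤ ‖v‖ := (le_max_right _ _).trans hbig
  have hv0 : 0 < ‖v‖ := by linarith
  refine ⟨(le_max_left _ _).trans hbig, fun j i => (hclose j i).trans ?_⟩
  -- `‖v‖ ≤ ∏ ≤ ((|κ| + 1) P_j ^ e_j) ^ r`
  have hvle : ‖v‖ ≤ ∏ j, (P j : ℝ) ^ e j := by
    rw [pi_norm_le_iff_of_nonneg (Finset.prod_nonneg fun j _ => (hP0 j).le)]
    intro i
    rw [Int.norm_eq_abs]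
    have h1 := (hv.1 i).1
    have h2 := (hv.1 i).2
    have h3 : |(v i : ℝ)| = (v i : ℝ) := abs_of_nonneg (by exact_mod_cast h1)
    rw [h3]
    have h4 : ((v i : ℤ) : ℝ) ≤ ((∏ j, (P j : ℤ) ^ e j : ℤ) : ℝ) := by exact_mod_cast h2.le
    refine h4.trans (le_of_eq ?_)
    push_cast
    rfl
  have hr0 : (0 : ℝ) < r := by exact_mod_cast hr
  have h5 : ‖v‖ ^ (1 / (r : ℝ)) ≤ (|κ| + 1) * (P j : ℝ) ^ e j := by
    have h6 := Real.rpow_le_rpow hv0.le (hvle.trans (hprod j)) (show 0 ≤ 1 / (r : ℝ) by positivity)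
    rwa [← Real.rpow_natCast, ← Real.rpow_mul (by have := hP0 j; positivity), mul_one_div_cancel hr0.ne',
      Real.rpow_one] at h6
  have h7 : 0 < ‖v‖ ^ (1 / (r : ℝ)) := Real.rpow_pos_of_pos hv0 _
  rw [Real.rpow_neg hv0.le, inv_le_iff_one_le_mul₀ (hP0 j)]
  obtain ⟨z, hz⟩ : ∃ z : ℝ, z = ‖v‖ ^ (1 / (r : ℝ)) := ⟨_, rfl⟩
  rw [← hz] at h5 h7 ⊢
  calc (1 : ℝ) = z * z⁻¹ := (mul_inv_cancel₀ h7.ne').symm
    _ ≤ ((|κ| + 1) * (P j : ℝ) ^ e j) * z⁻¹ := mul_le_mul_of_nonneg_right h5 (by positivity)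
    _ = _ := by ring

end Pool.Agent.V8H78.PA
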