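import Pool.Agent.V8H78.PA.Adic
import Pool.Agent.N671.DA.Mat

/-!
# Points over several primes: exceptional integer matrices
-/

set_option autoImplicit false

namespace Pool.Agent.V8H78.PA

open Finset
open Pool.Agent.N671.DA (Thin thin_of_nat mat mat_injective)

open Classical in
/-- the integer matrices with a property of a small set of matrices are thin -/
theorem thin_mat {n k : ℕ} (hnk : 1 ≤ n * k) (P : (Fin n → Fin k → ℚ) → Prop) {C₀ δ : ℝ} (hC₀ : 0 ≤ C₀)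
    (hδ1 : δ ≤ 1)
    (hP : ∀ A : Finset ℚ, A.Nonempty → (((Fintype.piFinset fun _ : Fin n => Fintype.piFinset fun _ : Fin k => A).filter
      (fun a => P a)).card : ℝ) ≤ C₀ * (A.card : ℝ) ^ ((n * k : ℝ) - δ * k)) :
    0 ≤ (n : ℝ) * k - δ * k ∧ Thin {v : Fin (n * k) → ℤ | P (mat v)} ((n : ℝ) * k - δ * k) := by
  have hn : (1 : ℝ) ≤ n := by
    have : 1 ≤ n := by
      rcases Nat.eq_zero_or_pos n with h0 | h0
      · rw [h0, zero_mul] at hnk
        omega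
      · exact h0
    exact_mod_cast this
  have hk0 : (0 : ℝ) ≤ k := Nat.cast_nonneg k
  have hs : 0 ≤ (n : ℝ) * k - δ * k := by
    have : δ * (k : ℝ) ≤ n * k := mul_le_mul_of_nonneg_right (hδ1.trans hn) hk0
    linarith
  refine ⟨hs, thin_of_nat (C₀ := C₀ * 3 ^ ((n : ℝ) * k - δ * k)) hs fun X hX => ?_⟩
  obtain ⟨A, hA⟩ : ∃ A : Finset ℚ, A = (Finset.Icc (-(X : ℤ)) X).image (fun z : ℤ => (z : ℚ)) := ⟨_, rfl⟩
  have hAne : A.Nonempty := by
    rw [hA]
    exact ⟨0, mem_image.2 ⟨0, mem_Icc.2 ⟨by omega, by omega⟩, Int.cast_zero⟩⟩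
  have hAcard : (A.card : ℝ) ≤ 3 * X := by
    have h1 : A.card ≤ 2 * X + 1 := by
      rw [hA]
      refine card_image_le.trans ?_
      rw [Int.card_Icc]
      omega
    have h2 : (A.card : ℝ) ≤ 2 * X + 1 := by exact_mod_cast h1
    have h3 : (1 : ℝ) ≤ X := by exact_mod_cast hX
    linarith
  have h1 := hP A hAne
  have hsub : mat '' {v : Fin (n * k) → ℤ | (∀ t, |v t| ≤ (X : ℤ)) ∧ v ∈ {v : Fin (n * k) → ℤ | P (mat v)}} ⊆
      (((Fintype.piFinset fun _ : Fin n => Fintype.piFinset fun _ : Fin k => A).filter (fun a => P a) :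
        Finset (Fin n → Fin k → ℚ)) : Set (Fin n → Fin k → ℚ)) := by
    rintro _ ⟨v, ⟨hv1, hv2⟩, rfl⟩
    rw [mem_coe, mem_filter, Fintype.mem_piFinset]
    refine ⟨fun j => ?_, hv2⟩
    rw [Fintype.mem_piFinset]
    intro i
    rw [hA]
    refine mem_image.2 ⟨v (finProdFinEquiv (j, i)), mem_Icc.2 ?_, rfl⟩
    exact abs_le.1 (hv1 _)
  have h2 := Set.ncard_le_ncard hsub (Finset.finite_toSet _)
  rw [Set.ncard_image_of_injective _ mat_injective, Set.ncard_coe_finset] at h2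
  calc (({v : Fin (n * k) → ℤ | (∀ t, |v t| ≤ (X : ℤ)) ∧ v ∈ {v : Fin (n * k) → ℤ | P (mat v)}}.ncard : ℕ) : ℝ)
      ≤ (((Fintype.piFinset fun _ : Fin n => Fintype.piFinset fun _ : Fin k => A).filter (fun a => P a)).card : ℝ) := by
        exact_mod_cast h2
    _ ≤ C₀ * (A.card : ℝ) ^ ((n : ℝ) * k - δ * k) := h1
    _ ≤ C₀ * (3 * (X : ℝ)) ^ ((n : ℝ) * k - δ * k) := by
        gcongr
    _ = C₀ * 3 ^ ((n : ℝ) * k - δ * k) * (X : ℝ) ^ ((n : ℝ) * k - δ * k) := by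
        rw [Real.mul_rpow (by norm_num) (Nat.cast_nonneg X)]
        ring

end Pool.Agent.V8H78.PA
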